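import Pool.Agent.E8helper2.ZB.Stm2
import Pool.Agent.E8helper2.ZB.Stm3
import Pool.Agent.E8helper72.ZO.Main

/-!
# Actions of orthogonal, unitary and quaternionic lattices: bounds by Betti numbers
-/

set_option autoImplicit false

namespace Pool.Agent.E8helper38.ZB

open Pool.Agent.H185.ZM Pool.Agent.Helper381 Pool.Agent.E8helper72.ZO Pool.Agent.E8helper2.ZB
open Module Matrix
open scoped Manifold ContDiff

variable {E : Type} [NormedAddCommGroup E] [NormedSpace ℝ E] [FiniteDimensional ℝ E]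
  {M : Type} [TopologicalSpace M] [ChartedSpace E M] [IsManifold 𝓘(ℝ, E) ∞ M]

/-- the argument of `Pool.Agent.E8helper72.ZO.core` with any bound `c` for the subgroups -/
theorem core' {G : Type} [Group G]
    (Γ Δ : Subgroup G) (hfi : Finite (Γ ⧸ Δ.subgroupOf Γ)) {P : Type} [CommGroup P] [Finite P]
    (φ : P →* G) (hφ : ∀ p, φ p ∈ Γ) {c z : ℕ}
    (hc : ∀ (Q : Type) [CommGroup Q] [Finite Q] (ψ : Q →* P), Function.Injective ψ →
      ∀ (a : Q → M → M) (ha : SmoothAction E a), Nat.card Q ∣ Nat.card (actKer ha) * c)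
    (hz : Nat.card ((Subgroup.center G).comap φ) ∣ z)
    (hdvd : ¬ (Nat.card P ∣ z * c * Δ.relIndex Γ)) :
    Concl E M Γ Δ φ := by
  intro α hα
  have hex : ∃ p : P, ∃ γ ∈ Γ, ∃ h : γ⁻¹ * φ p * γ ∈ Δ, (∀ x, α ⟨_, h⟩ x = x) ∧
      γ⁻¹ * φ p * γ ∉ Subgroup.center G := by
    by_contra hcon
    push Not at hcon
    apply hdvd
    let φ' : P →* Γ := φ.codRestrict Γ hφ
    exact fi_dvd (Δ.subgroupOf Γ) φ' (z * c) (fun γ Q hQ => by
      let ψ : Q →* Δ :=
        { toFun := fun q => ⟨(γ : G)⁻¹ * φ q * γ, hQ q q.2⟩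
          map_one' := Subtype.ext (by simp)
          map_mul' := fun x y => Subtype.ext (by simp [mul_assoc]) }
      have h2 := hc Q Q.subtype Q.subtype_injective _ (hα.action.comp ψ)
      have h3 : Nat.card (actKer (hα.action.comp ψ)) ∣ Nat.card ((Subgroup.center G).comap φ) := by
        have hin : ∀ q : actKer (hα.action.comp ψ),
            ((q : Q) : P) ∈ (Subgroup.center G).comap φ := by
          intro q
          have h5 := hcon ((q : Q) : P) γ γ.2 (hQ (q : Q) (q : Q).2) q.2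
          rw [Subgroup.mem_comap]
          have h6 : φ ((q : Q) : P) = (γ : G) * ((γ : G)⁻¹ * φ ((q : Q) : P) * γ) * (γ : G)⁻¹ := by
            group
          rw [h6]
          exact Subgroup.Normal.conj_mem inferInstance _ h5 _
        let θ : actKer (hα.action.comp ψ) →* (Subgroup.center G).comap φ :=
          { toFun := fun q => ⟨((q : Q) : P), hin q⟩
            map_one' := rfl
            map_mul' := fun _ _ => rfl }
        refine Subgroup.card_dvd_of_injective θ (fun a b hab => ?_)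
        have := congrArg Subtype.val hab
        exact Subtype.ext (Subtype.ext this)
      exact h2.trans (mul_dvd_mul_right (h3.trans hz) _))
  refine ⟨hex, fun hNS => hα.finite_range ?_⟩
  obtain ⟨p, γ, hγ, h, h1, h2⟩ := hex
  rcases hNS (actKer hα.action) inferInstance with h3 | h3
  · exact absurd (h3 ⟨_, h⟩ h1) h2
  · exact h3

lemma arN {q : ℕ} (hq : q ≠ 0) {s δ t e x : ℕ} (h : ¬ q ^ (e + 1) ∣ x) (hs : t + e + δ < s) :
    ¬ (q ^ s ∣ q ^ δ * q ^ t * x) := by
  intro hd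
  apply h
  have h1 : q ^ (δ + t) * q ^ (e + 1) ∣ q ^ (δ + t) * x := by
    rw [← pow_add]
    refine (pow_dvd_pow _ (by omega : δ + t + (e + 1) ≤ s)).trans ?_
    rwa [pow_add]
  exact Nat.dvd_of_mul_dvd_mul_left (Nat.pos_of_ne_zero (pow_ne_zero _ hq)) h1

lemma finN {G : Type} [Group G] {Γ Δ : Subgroup G} {q e : ℕ}
    (h : ¬ q ^ (e + 1) ∣ Δ.relIndex Γ) : Finite (Γ ⧸ Δ.subgroupOf Γ) := by
  have h1 : (Δ.subgroupOf Γ).index ≠ 0 := by
    intro h2
    apply h
    have h3 : Δ.relIndex Γ = 0 := h2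
    rw [h3]
    exact dvd_zero _
  have h3 : (Δ.subgroupOf Γ).FiniteIndex := ⟨h1⟩
  exact inferInstance

/-- diagonal matrices with entries in a cyclic group and product of the exponents one -/
theorem comm_case' {F : Type} [Ring F]
    {z : F} {k n : ℕ} [NeZero k] (hz : z ^ k = 1) (ho : orderOf z = k) (hn : 1 ≤ n)
    {Γ Δ : Subgroup (Matrix (Fin n) (Fin n) F)ˣ}
    (hΓ : ∀ a : D1 (Multiplicative (ZMod k)) n,
      dg (pw z k hz) n (a : Fin n → Multiplicative (ZMod k)) ∈ Γ) {q e δ t s : ℕ}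
    (hc : ∀ (Q : Type) [CommGroup Q] [Finite Q] (ψ : Q →* D1 (Multiplicative (ZMod k)) n),
      Function.Injective ψ → ∀ (a : Q → M → M) (ha : SmoothAction E a),
        Nat.card Q ∣ Nat.card (actKer ha) * q ^ t) (hq : q ≠ 0)
    (hgcd : Nat.gcd n k = q ^ δ) (hk : k ^ (n - 1) = q ^ s)
    (hdvd : ¬ q ^ (e + 1) ∣ Δ.relIndex Γ)
    (hs : t + e + δ < s) : FiniteActions E M Γ Δ (PD z n) := by
  have hfi := finN hdvd
  refine Concl.fa (φ := (dg (pw z k hz) n).comp (D1 (Multiplicative (ZMod k)) n).subtype)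
    (core' Γ Δ hfi _ hΓ hc (z := q ^ δ) ?_ ?_) (fun p => pw_PD hz _)
  · rw [← hgcd]
    have h1 := card_const (A := Multiplicative (ZMod k)) hn ((Subgroup.center _).comap
      ((dg (pw z k hz) n).comp (D1 (Multiplicative (ZMod k)) n).subtype)) (fun a ha i j => by
        have h2 : dg (pw z k hz) n (a : Fin n → Multiplicative (ZMod k)) ∈
          Subgroup.center (Matrix (Fin n) (Fin n) F)ˣ := ha
        exact pw_inj z k hz ho (const_of_center h2 i j))
    rwa [card_mz] at h1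
  · rw [card_D1 hn, card_mz, hk]
    exact arN hq hdvd hs

section bounds

variable [CompactSpace M] [T2Space M] [ConnectedSpace M]

lemma bound_two (hM : S_MAN) {P : Type} [CommGroup P] (hP : ∀ x : P, x ^ 2 = 1)
    (Q : Type) [CommGroup Q] [Finite Q] (ψ : Q →* P) (hψ : Function.Injective ψ)
    (a : Q → M → M) (ha : SmoothAction E a) :
    Nat.card Q ∣ Nat.card (actKer ha) *
      2 ^ (finrank ℝ E + ((totalBetti (ZMod 2) M).toNat - 1)) := by
  have h1 := (hM 2 E M Q (fun x => hψ (by rw [map_pow, map_one]; exact hP _)) a ha).2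
  have h2 : cst 2 (finrank ℝ E) = 2 ^ finrank ℝ E := if_pos rfl
  rwa [h2, ← pow_add] at h1

lemma bound_odd (hM : S_MAN) {p : ℕ} [Fact p.Prime] (hp2 : p ≠ 2) {P : Type} [CommGroup P]
    (hP : ∀ x : P, x ^ p = 1)
    (Q : Type) [CommGroup Q] [Finite Q] (ψ : Q →* P) (hψ : Function.Injective ψ)
    (a : Q → M → M) (ha : SmoothAction E a) :
    Nat.card Q ∣ Nat.card (actKer ha) *
      p ^ (finrank ℝ E / 2 + ((totalBetti (ZMod p) M).toNat - 1)) := by
  have h1 := (hM p E M Q (fun x => hψ (by rw [map_pow, map_one]; exact hP _)) a ha).2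
  have h2 : cst p (finrank ℝ E) = p ^ (finrank ℝ E / 2) := if_neg hp2
  rwa [h2, ← pow_add] at h1

lemma bound_four (h4 : S_MAN4) {P : Type} [CommGroup P] (hP : ∀ x : P, x ^ 4 = 1)
    (Q : Type) [CommGroup Q] [Finite Q] (ψ : Q →* P) (hψ : Function.Injective ψ)
    (a : Q → M → M) (ha : SmoothAction E a) :
    Nat.card Q ∣ Nat.card (actKer ha) *
      2 ^ (finrank ℝ E + 2 * ((totalBetti (ZMod 2) M).toNat - 1)) := by
  have h1 := h4 E M Q (fun x => hψ (by rw [map_pow, map_one]; exact hP _)) a ha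
  have h2 : (4 : ℕ) ^ ((totalBetti (ZMod 2) M).toNat - 1) =
      2 ^ (2 * ((totalBetti (ZMod 2) M).toNat - 1)) := by
    rw [pow_mul]
    rfl
  rwa [h2, ← pow_add] at h1

/-- (1) groups containing the diagonal matrices with entries `1`, `-1` and an even number of
entries `-1` -/
theorem sign_case (hM : S_MAN) {F : Type} [Ring F]
    (h2 : (2 : F) ≠ 0) {n : ℕ} {Γ Δ : Subgroup (Matrix (Fin n) (Fin n) F)ˣ}
    (hΓ : ∀ (g : (Matrix (Fin n) (Fin n) F)ˣ) (d : Fin n → ℕ), Even (∑ i, d i) →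
      (g : Matrix (Fin n) (Fin n) F) = diagonal (fun i => (-1) ^ d i) → g ∈ Γ) {e : ℕ}
    (hdvd : ¬ 2 ^ (e + 1) ∣ Δ.relIndex Γ)
    (hs : finrank ℝ E + ((totalBetti (ZMod 2) M).toNat - 1) + e + Nat.gcd n 2 < n) :
    FiniteActions E M Γ Δ (PD (-1) n) := by
  have hz : (-1 : F) ^ 2 = 1 := by rw [pow_two, neg_mul_neg, one_mul]
  have hne : (-1 : F) ≠ 1 := neg_one_ne h2
  have ho : orderOf (-1 : F) = 2 := orderOf_eq_prime hz hne
  have h1 : Nat.gcd n 2 ∣ 2 := Nat.gcd_dvd_right _ _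
  have h3 : Nat.gcd n 2 = 1 ∨ Nat.gcd n 2 = 2 := (Nat.dvd_prime Nat.prime_two).1 h1
  have hn : 1 ≤ n := by omega
  refine comm_case' hz ho hn (fun a => hΓ _ (fun i => (((a : Fin n → Multiplicative (ZMod 2))
    i).toAdd).val) ?_ rfl) (q := 2) (e := e) (δ := Nat.gcd n 2 - 1)
    (t := finrank ℝ E + ((totalBetti (ZMod 2) M).toNat - 1))
    (s := n - 1) (bound_two hM fun x => ?_) two_ne_zero ?_ rfl hdvd (by omega)
  · have h4 : ∏ i, (a : Fin n → Multiplicative (ZMod 2)) i = 1 := a.2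
    have h5 : ∑ i, ((a : Fin n → Multiplicative (ZMod 2)) i).toAdd = 0 := by
      have := congrArg Multiplicative.toAdd h4
      rwa [toAdd_prod, toAdd_one] at this
    rw [even_iff_two_dvd, ← ZMod.natCast_eq_zero_iff, Nat.cast_sum]
    rw [← h5]
    exact Finset.sum_congr rfl fun i _ => ZMod.natCast_zmod_val _
  · apply Subtype.ext
    funext i
    have h4 : ∀ x : Multiplicative (ZMod 2), x ^ 2 = 1 := by decide
    exact h4 _
  · rcases h3 with h | h <;> rw [h] <;> rfl

/-- (2) groups containing special unitary groups, fourth roots of unity -/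
theorem four_case' (hM4 : S_MAN4) {F : Type} [CommRing F]
    [StarRing F] (h2 : (2 : F) ≠ 0) (R : Subring F) {z : F} (hzR : z ∈ R) (hz2 : z * z = -1)
    (hzs : star z = -z) {n : ℕ} (h : Fin n → F)
    {Γ Δ : Subgroup (Matrix (Fin n) (Fin n) F)ˣ} (hΓ : SUG R h ≤ Γ) {e δ : ℕ}
    (hδ : Nat.gcd n 4 = 2 ^ δ)
    (hdvd : ¬ 2 ^ (e + 1) ∣ Δ.relIndex Γ)
    (hs : finrank ℝ E + 2 * ((totalBetti (ZMod 2) M).toNat - 1) + e + δ + 2 < 2 * n) :
    FiniteActions E M Γ Δ (PD z n) := by
  have hne : (-1 : F) ≠ 1 := neg_one_ne h2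
  have hz : z ^ 4 = 1 := by
    calc z ^ 4 = (z * z) * (z * z) := by ring
      _ = 1 := by rw [hz2]; ring
  have ho : orderOf z = 4 := by
    have h1 : orderOf z = 2 ^ (1 + 1) := by
      apply orderOf_eq_prime_pow
      · rw [pow_one, pow_two, hz2]
        exact hne
      · exact hz
    rw [h1]; rfl
  have hn : 1 ≤ n := by omega
  refine comm_case' hz ho hn (fun a => hΓ (dg_mem_SUG R hzR hz (by rw [hzs, neg_mul, hz2, neg_neg])
    a)) (q := 2) (e := e) (δ := δ)
    (t := finrank ℝ E + 2 * ((totalBetti (ZMod 2) M).toNat - 1))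
    (s := 2 * (n - 1)) (bound_four hM4 fun x => ?_) two_ne_zero hδ ?_ hdvd
    (by omega)
  · apply Subtype.ext
    funext i
    have h4 : ∀ x : Multiplicative (ZMod 4), x ^ 4 = 1 := by decide
    exact h4 _
  · rw [show (4 : ℕ) = 2 ^ 2 by rfl, ← pow_mul]

/-- (3) groups containing special unitary groups, roots of unity of odd prime order -/
theorem odd_case' (hM : S_MAN) {F : Type} [CommRing F]
    [StarRing F] (R : Subring F) {p : ℕ} [Fact p.Prime] (hp2 : p ≠ 2) {z : F} (hzR : z ∈ R)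
    (hz : z ^ p = 1) (hz1 : z ≠ 1) (hzs : star z * z = 1) {n : ℕ} (h : Fin n → F)
    {Γ Δ : Subgroup (Matrix (Fin n) (Fin n) F)ˣ} (hΓ : SUG R h ≤ Γ) {e δ : ℕ}
    (hδ : Nat.gcd n p = p ^ δ)
    (hdvd : ¬ p ^ (e + 1) ∣ Δ.relIndex Γ)
    (hs : finrank ℝ E / 2 + ((totalBetti (ZMod p) M).toNat - 1) + e + δ + 1 < n) :
    FiniteActions E M Γ Δ (PD z n) := by
  have hp : p.Prime := Fact.out
  have : NeZero p := ⟨hp.ne_zero⟩
  have ho : orderOf z = p := orderOf_eq_prime hz hz1
  have hn : 1 ≤ n := by omega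
  refine comm_case' hz ho hn (fun a => hΓ (dg_mem_SUG R hzR hz hzs a))
    (q := p) (e := e) (δ := δ)
    (t := finrank ℝ E / 2 + ((totalBetti (ZMod p) M).toNat - 1))
    (s := n - 1) (bound_odd hM hp2 fun x => ?_) hp.ne_zero hδ rfl hdvd (by omega)
  apply Subtype.ext
  funext i
  have h4 : ∀ x : Multiplicative (ZMod p), x ^ p = 1 := by
    intro x
    have h5 : x ^ Nat.card (Multiplicative (ZMod p)) = 1 := pow_card_eq_one'
    rwa [card_mz] at h5
  exact h4 _

/-- (4) groups containing the unitary group of a diagonal hermitian or skew-hermitian form over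
quaternions -/
theorem quat_case' (hM4 : S_MAN4) {O : Type} [Ring O]
    [StarRing O] (h2 : (2 : O) ≠ 0) (R : Subring O) {z : O} (hzR : z ∈ R) (hz2 : z * z = -1)
    (hzs : star z = -z) (w : Oˣ) (hw : (w : O) * z = -(z * w)) {n : ℕ} (h : Fin n → O)
    (hh : ∀ i, h i * z = z * h i) {Γ Δ : Subgroup (Matrix (Fin n) (Fin n) O)ˣ}
    (hΓ : UG R h ≤ Γ) {e : ℕ}
    (hdvd : ¬ 2 ^ (e + 1) ∣ Δ.relIndex Γ)
    (hs : finrank ℝ E + 2 * ((totalBetti (ZMod 2) M).toNat - 1) + e + 1 < 2 * n) :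
    FiniteActions E M Γ Δ (PD z n) := by
  have hne : (-1 : O) ≠ 1 := neg_one_ne h2
  have hz : z ^ 4 = 1 := by
    have h3 : z ^ 4 = (z * z) * (z * z) := by
      rw [show (4 : ℕ) = 2 + 2 by rfl, pow_add, pow_two]
    rw [h3, hz2, neg_mul_neg, one_mul]
  have ho : orderOf z = 4 := by
    have h1 : orderOf z = 2 ^ (1 + 1) := by
      apply orderOf_eq_prime_pow
      · rw [pow_one, pow_two, hz2]
        exact hne
      · exact hz
    rw [h1]; rfl
  have hn : 1 ≤ n := by omega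
  have hfi := finN hdvd
  have h4 : ∀ x : Multiplicative (ZMod 4), x ^ 4 = 1 := by decide
  refine Concl.fa (φ := dg (pw z 4 hz) n)
    (core' Γ Δ hfi _ (fun a => hΓ (dg_mem_UG R hzR hz (fun i => ?_) a))
      (c := 2 ^ (finrank ℝ E + 2 * ((totalBetti (ZMod 2) M).toNat - 1)))
      (bound_four hM4 fun x => funext fun i => h4 _) (z := 2 ^ 1) ?_ ?_) (fun p => pw_PD hz _)
  · rw [hzs, neg_mul, neg_mul, mul_assoc, hh, ← mul_assoc, hz2, neg_mul, one_mul, neg_neg]
  · let i0 : Fin n := ⟨0, by omega⟩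
    let ev : ((Subgroup.center _).comap (dg (pw z 4 hz) n)) →* Multiplicative (ZMod 4) :=
      (Pi.evalMonoidHom (fun _ : Fin n => Multiplicative (ZMod 4)) i0).comp
        ((Subgroup.center _).comap (dg (pw z 4 hz) n)).subtype
    have hcon : ∀ a : ((Subgroup.center _).comap (dg (pw z 4 hz) n)), ∀ i,
        (a : Fin n → Multiplicative (ZMod 4)) i = ev a := by
      intro a i
      exact pw_inj z 4 hz ho (const_of_center a.2 i i0)
    have hinj : Function.Injective ev := by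
      intro p q hpq
      apply Subtype.ext
      funext j
      rw [hcon p j, hcon q j, hpq]
    have hsq : ∀ a : ((Subgroup.center _).comap (dg (pw z 4 hz) n)), ev a ^ 2 = 1 := by
      intro a
      have h5 := comm_of_center a.2 i0 w
      have h6 : ∀ x : Multiplicative (ZMod 4), x ^ 2 = 1 ∨ x.toAdd.val = 1 ∨ x.toAdd.val = 3 := by
        decide
      rcases h6 (ev a) with h7 | h7 | h7
      · exact h7
      · exfalso
        have h8 : pw z 4 hz ((a : Fin n → Multiplicative (ZMod 4)) i0) = z := by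
          show z ^ (ev a).toAdd.val = z
          rw [h7, pow_one]
        rw [h8, hw] at h5
        apply h2
        have h9 : (2 : O) * (z * w) = 0 := by
          rw [two_mul]
          nth_rewrite 1 [← h5]
          exact neg_add_cancel _
        have h10 : (2 : O) * (z * w) * ((w⁻¹ : Oˣ) : O) * (-z) = 2 := by
          rw [mul_assoc (2 : O), mul_assoc z, Units.mul_inv, mul_one, mul_assoc, mul_neg, hz2,
            neg_neg, mul_one]
        rw [← h10, h9, zero_mul, zero_mul]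
      · exfalso
        have h8 : pw z 4 hz ((a : Fin n → Multiplicative (ZMod 4)) i0) = -z := by
          show z ^ (ev a).toAdd.val = -z
          rw [h7, pow_succ, pow_two, hz2, neg_mul, one_mul]
        rw [h8, mul_neg, hw, neg_mul, neg_neg] at h5
        apply h2
        have h9 : (2 : O) * (z * w) = 0 := by
          rw [two_mul]
          nth_rewrite 1 [h5]
          exact neg_add_cancel _
        have h10 : (2 : O) * (z * w) * ((w⁻¹ : Oˣ) : O) * (-z) = 2 := by
          rw [mul_assoc (2 : O), mul_assoc z, Units.mul_inv, mul_one, mul_assoc, mul_neg, hz2,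
            neg_neg, mul_one]
        rw [← h10, h9, zero_mul, zero_mul]
    have hc : IsCyclic ((Subgroup.center _).comap (dg (pw z 4 hz) n)) :=
      isCyclic_of_injective ev hinj
    rw [pow_one, ← IsCyclic.exponent_eq_card]
    apply Monoid.exponent_dvd_of_forall_pow_eq_one
    intro p
    apply hinj
    rw [map_pow, map_one, hsq]
  · have hcard : Nat.card (Fin n → Multiplicative (ZMod 4)) = 2 ^ (2 * n) := by
      rw [Nat.card_fun, card_mz]
      simp [pow_mul]
    rw [hcard]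
    exact arN two_ne_zero hdvd (by omega)

/-- (1') groups containing all diagonal matrices with entries `1`, `-1` -/
theorem sign_case_full (hM : S_MAN) {F : Type} [Ring F]
    (h2 : (2 : F) ≠ 0) {n : ℕ} {Γ Δ : Subgroup (Matrix (Fin n) (Fin n) F)ˣ}
    (hΓ : ∀ (g : (Matrix (Fin n) (Fin n) F)ˣ) (d : Fin n → ℕ),
      (g : Matrix (Fin n) (Fin n) F) = diagonal (fun i => (-1) ^ d i) → g ∈ Γ) {e : ℕ}
    (hdvd : ¬ 2 ^ (e + 1) ∣ Δ.relIndex Γ)
    (hs : finrank ℝ E + ((totalBetti (ZMod 2) M).toNat - 1) + e + 1 < n) :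
    FiniteActions E M Γ Δ (PD (-1) n) := by
  have hz : (-1 : F) ^ 2 = 1 := by rw [pow_two, neg_mul_neg, one_mul]
  have hne : (-1 : F) ≠ 1 := neg_one_ne h2
  have ho : orderOf (-1 : F) = 2 := orderOf_eq_prime hz hne
  have hn : 1 ≤ n := by omega
  have hfi := finN hdvd
  have h4 : ∀ x : Multiplicative (ZMod 2), x ^ 2 = 1 := by decide
  refine Concl.fa (φ := dg (pw (-1 : F) 2 hz) n)
    (core' Γ Δ hfi _ (fun a => hΓ _ (fun i => ((a i).toAdd).val) rfl)
      (c := 2 ^ (finrank ℝ E + ((totalBetti (ZMod 2) M).toNat - 1)))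
      (bound_two hM fun x => funext fun i => h4 _) (z := 2 ^ 1) ?_ ?_) (fun p => pw_PD hz _)
  · let i0 : Fin n := ⟨0, by omega⟩
    let ev : ((Subgroup.center _).comap (dg (pw (-1 : F) 2 hz) n)) →* Multiplicative (ZMod 2) :=
      (Pi.evalMonoidHom (fun _ : Fin n => Multiplicative (ZMod 2)) i0).comp
        ((Subgroup.center _).comap (dg (pw (-1 : F) 2 hz) n)).subtype
    have hcon : ∀ a : ((Subgroup.center _).comap (dg (pw (-1 : F) 2 hz) n)), ∀ i,
        (a : Fin n → Multiplicative (ZMod 2)) i = ev a := by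
      intro a i
      exact pw_inj (-1) 2 hz ho (const_of_center a.2 i i0)
    have hinj : Function.Injective ev := by
      intro p q hpq
      apply Subtype.ext
      funext j
      rw [hcon p j, hcon q j, hpq]
    have h5 := Subgroup.card_dvd_of_injective ev hinj
    rwa [card_mz] at h5
  · have hcard : Nat.card (Fin n → Multiplicative (ZMod 2)) = 2 ^ n := by
      rw [Nat.card_fun, card_mz]
      simp
    rw [hcard]
    exact arN two_ne_zero hdvd (by omega)

/-- **Task 319: the four families.** -/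
theorem lat (hM : S_MAN) (hM4 : S_MAN4) :
    -- (1) groups which contain the diagonal matrices with entries `1`, `-1` and an even number of
    -- entries `-1`, over any ring
    (∀ (F : Type) [Ring F] (n : ℕ) (Γ Δ : Subgroup (Matrix (Fin n) (Fin n) F)ˣ) (e : ℕ),
      (2 : F) ≠ 0 →
      (∀ (g : (Matrix (Fin n) (Fin n) F)ˣ) (d : Fin n → ℕ), Even (∑ i, d i) →
        (g : Matrix (Fin n) (Fin n) F) = diagonal (fun i => (-1) ^ d i) → g ∈ Γ) →
      ¬ 2 ^ (e + 1) ∣ Δ.relIndex Γ →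
      finrank ℝ E + ((totalBetti (ZMod 2) M).toNat - 1) + e + Nat.gcd n 2 < n →
      FiniteActions E M Γ Δ (PD (-1) n)) ∧
    -- (2) special unitary groups and larger groups, fourth roots of unity
    (∀ (F : Type) [CommRing F] [StarRing F] (R : Subring F) (z : F) (n : ℕ) (h : Fin n → F)
      (Γ Δ : Subgroup (Matrix (Fin n) (Fin n) F)ˣ) (e δ : ℕ), (2 : F) ≠ 0 → z ∈ R →
      z * z = -1 → star z = -z → SUG R h ≤ Γ → Nat.gcd n 4 = 2 ^ δ →
      ¬ 2 ^ (e + 1) ∣ Δ.relIndex Γ →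
      finrank ℝ E + 2 * ((totalBetti (ZMod 2) M).toNat - 1) + e + δ + 2 < 2 * n →
      FiniteActions E M Γ Δ (PD z n)) ∧
    -- (3) special unitary groups and larger groups, roots of unity of odd prime order
    (∀ (F : Type) [CommRing F] [StarRing F] (R : Subring F) (p : ℕ) [Fact p.Prime] (z : F)
      (n : ℕ) (h : Fin n → F) (Γ Δ : Subgroup (Matrix (Fin n) (Fin n) F)ˣ) (e δ : ℕ), p ≠ 2 →
      z ∈ R → z ^ p = 1 → z ≠ 1 → star z * z = 1 → SUG R h ≤ Γ → Nat.gcd n p = p ^ δ →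
      ¬ p ^ (e + 1) ∣ Δ.relIndex Γ →
      finrank ℝ E / 2 + ((totalBetti (ZMod p) M).toNat - 1) + e + δ + 1 < n →
      FiniteActions E M Γ Δ (PD z n)) ∧
    -- (4) unitary groups of hermitian and skew-hermitian forms over quaternions
    (∀ (O : Type) [Ring O] [StarRing O] (R : Subring O) (z : O) (w : Oˣ) (n : ℕ) (h : Fin n → O)
      (Γ Δ : Subgroup (Matrix (Fin n) (Fin n) O)ˣ) (e : ℕ), (2 : O) ≠ 0 → z ∈ R →
      z * z = -1 → star z = -z → (w : O) * z = -(z * w) → (∀ i, h i * z = z * h i) →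
      UG R h ≤ Γ →
      ¬ 2 ^ (e + 1) ∣ Δ.relIndex Γ →
      finrank ℝ E + 2 * ((totalBetti (ZMod 2) M).toNat - 1) + e + 1 < 2 * n →
      FiniteActions E M Γ Δ (PD z n)) :=
  ⟨fun _ _ _ _ _ _ h2 hΓ hd hs => sign_case hM h2 hΓ hd hs,
    fun _ _ _ R _ _ h _ _ _ _ h2 hzR hz2 hzs hΓ hδ hd hs =>
      four_case' hM4 h2 R hzR hz2 hzs h hΓ hδ hd hs,
    fun _ _ _ R _ _ _ _ h _ _ _ _ hp2 hzR hz hz1 hzs hΓ hδ hd hs =>
      odd_case' hM R hp2 hzR hz hz1 hzs h hΓ hδ hd hs,
    fun _ _ _ R _ w _ h _ _ _ h2 hzR hz2 hzs hw hh hΓ hd hs =>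
      quat_case' hM4 h2 R hzR hz2 hzs w hw h hh hΓ hd hs⟩

end bounds

section contain

lemma sq_sign {F : Type} [Ring F] (k : ℕ) : ((-1 : F) ^ k) * (-1) ^ k = 1 := by
  rcases neg_one_pow_eq_or F k with h | h
  · rw [h, one_mul]
  · rw [h, neg_mul_neg, one_mul]

lemma sign_mem {F : Type} [Ring F] (R : Subring F) (k : ℕ) : ((-1 : F) ^ k) ∈ R :=
  R.pow_mem (R.neg_mem R.one_mem) _

lemma sign_inv {F : Type} [Ring F] {n : ℕ} {g : (Matrix (Fin n) (Fin n) F)ˣ} {d : Fin n → ℕ}
    (hg : (g : Matrix (Fin n) (Fin n) F) = diagonal (fun i => (-1) ^ d i)) :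
    ((g⁻¹ : (Matrix (Fin n) (Fin n) F)ˣ) : Matrix (Fin n) (Fin n) F) =
      diagonal (fun i => (-1) ^ d i) := by
  have h1 : g * g = 1 := by
    apply Units.ext
    rw [Units.val_mul, hg, diagonal_mul_diagonal, Units.val_one, ← diagonal_one]
    congr 1
    funext i
    exact sq_sign _
  rw [inv_eq_of_mul_eq_one_left h1, hg]

/-- `SO(f; R)` contains the diagonal matrices with entries `1`, `-1` and an even number of entries
`-1` -/
lemma sog_sign {F : Type} [CommRing F] (R : Subring F) {n : ℕ} (f : Fin n → F)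
    (g : (Matrix (Fin n) (Fin n) F)ˣ) (d : Fin n → ℕ) (hd : Even (∑ i, d i))
    (hg : (g : Matrix (Fin n) (Fin n) F) = diagonal (fun i => (-1) ^ d i)) : g ∈ SOG R f := by
  refine ⟨⟨fun i j => ?_, fun i j => ?_⟩, ?_, ?_⟩
  · rw [hg]
    exact diag_mem R (fun i => sign_mem R _) i j
  · rw [sign_inv hg]
    exact diag_mem R (fun i => sign_mem R _) i j
  · rw [hg, diagonal_transpose, diagonal_mul_diagonal, diagonal_mul_diagonal]
    congr 1
    funext i
    rw [mul_right_comm, sq_sign, one_mul]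
  · rw [hg, det_diagonal, Finset.prod_pow_eq_pow_sum]
    exact hd.neg_one_pow

/-- `U(h; R)` contains the diagonal matrices with entries `1`, `-1` -/
lemma ug_sign {F : Type} [Ring F] [StarRing F] (R : Subring F) {n : ℕ} (h : Fin n → F)
    (g : (Matrix (Fin n) (Fin n) F)ˣ) (d : Fin n → ℕ)
    (hg : (g : Matrix (Fin n) (Fin n) F) = diagonal (fun i => (-1) ^ d i)) : g ∈ UG R h := by
  refine ⟨⟨fun i j => ?_, fun i j => ?_⟩, ?_⟩
  · rw [hg]
    exact diag_mem R (fun i => sign_mem R _) i j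
  · rw [sign_inv hg]
    exact diag_mem R (fun i => sign_mem R _) i j
  · rw [hg, diagonal_conjTranspose, diagonal_mul_diagonal, diagonal_mul_diagonal]
    congr 1
    funext i
    have h1 : star ((-1 : F) ^ d i) = (-1) ^ d i := by
      rw [star_pow, star_neg, star_one]
    have h2 : (fun i => (-1 : F) ^ d i) i = (-1) ^ d i := rfl
    rw [Pi.star_apply, h1]
    rcases neg_one_pow_eq_or F (d i) with h3 | h3
    · rw [h3, one_mul, mul_one]
    · rw [h3, neg_mul, one_mul, neg_mul_neg, mul_one]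

end contain

end Pool.Agent.E8helper38.ZB
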