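import Pool.Agent.E8helper2.ZB.Stm6

/-!
# Even sign changes act with bounded Loewy length in small representations over `ℤ/2`
-/

set_option autoImplicit false

namespace Pool.Agent.E8helper38.ZB

open Module Matrix Pool.Agent.E8helper2.ZB

section nilp

/-- commuting operators of square zero on a nonzero space have a proper common image -/
theorem nil (k : Type) [Field k] : ∀ (m : ℕ) (W : Type) [AddCommGroup W] [Module k W]
    [FiniteDimensional k W] (ι : Type) (N : ι → W →ₗ[k] W), finrank k W ≤ m →
    (∀ i j, N i ∘ₗ N j = N j ∘ₗ N i) → (∀ i, N i ∘ₗ N i = 0) →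
    (⨆ i, LinearMap.range (N i)) = ⊤ → finrank k W = 0 := by
  intro m
  induction m with
  | zero => intro W _ _ _ ι N hm _ _ _; omega
  | succ m ih =>
    intro W _ _ _ ι N hm hcomm hsq htop
    by_cases h0 : ∀ i, N i = 0
    · have h1 : (⨆ i, LinearMap.range (N i)) = ⊥ := by
        rw [iSup_eq_bot]
        intro i
        rw [h0 i, LinearMap.range_zero]
      rw [h1] at htop
      have h2 : finrank k (⊤ : Submodule k W) = finrank k (⊥ : Submodule k W) := by rw [htop]
      rw [finrank_top, finrank_bot] at h2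
      exact h2
    · push Not at h0
      obtain ⟨i0, hi0⟩ := h0
      set U := LinearMap.range (N i0) with hU
      have hst : ∀ i, U ≤ U.comap (N i) := by
        rintro i _ ⟨x, rfl⟩
        refine ⟨N i x, ?_⟩
        exact LinearMap.congr_fun (hcomm i0 i) x
      have hU0 : U ≠ ⊥ := by
        intro h
        apply hi0
        exact LinearMap.range_eq_bot.1 h
      have hUf : 0 < finrank k U := Module.finrank_pos_iff.2 (Submodule.nontrivial_iff_ne_bot.2 hU0)
      have hq := Submodule.finrank_quotient_add_finrank U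
      have h3 := ih (W ⧸ U) ι (fun i => U.mapQ U (N i) (hst i)) (by omega)
        (fun i j => by
          apply LinearMap.ext
          intro y
          obtain ⟨x, rfl⟩ := U.mkQ_surjective y
          show U.mkQ (N i (N j x)) = U.mkQ (N j (N i x))
          have := LinearMap.congr_fun (hcomm i j) x
          exact congrArg U.mkQ this)
        (fun i => by
          apply LinearMap.ext
          intro y
          obtain ⟨x, rfl⟩ := U.mkQ_surjective y
          show U.mkQ (N i (N i x)) = 0
          have : N i (N i x) = 0 := LinearMap.congr_fun (hsq i) x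
          rw [this, map_zero])
        (by
          rw [eq_top_iff]
          have h4 : (⊤ : Submodule k (W ⧸ U)) = Submodule.map U.mkQ ⊤ := by
            rw [Submodule.map_top, Submodule.range_mkQ]
          rw [h4, ← htop, Submodule.map_iSup]
          apply iSup_mono
          rintro i _ ⟨_, ⟨x, rfl⟩, rfl⟩
          exact ⟨U.mkQ x, rfl⟩)
      exfalso
      apply hi0
      have h5 : U = ⊤ := by
        apply Submodule.eq_top_of_finrank_eq
        omega
      apply LinearMap.ext
      intro x
      have hx : x ∈ U := by rw [h5]; exact Submodule.mem_top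
      obtain ⟨y, rfl⟩ := hx
      exact LinearMap.congr_fun (hsq i0) y

end nilp

section loewy

variable {G : Type} [Group G]

lemma conj_N {V : Type} [AddCommGroup V] [Module (ZMod 2) V] (ρ : G →* (V →ₗ[ZMod 2] V))
    (h g : G) (v : V) : ρ h ((ρ g - 1) v) = (ρ (h * g * h⁻¹) - 1) (ρ h v) := by
  have h1 : ρ (h * g * h⁻¹) (ρ h v) = ρ h (ρ g v) := by
    have h2 : (ρ (h * g * h⁻¹) * ρ h) v = (ρ h * ρ g) v := by
      rw [← map_mul, ← map_mul]
      congr 2
      group
    exact h2
  rw [LinearMap.sub_apply, LinearMap.sub_apply, map_sub, h1]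
  rfl

theorem loewy (D : Set G) (hconj : ∀ h g, g ∈ D → h * g * h⁻¹ ∈ D)
    (hcomm : ∀ g ∈ D, ∀ g' ∈ D, g * g' = g' * g) (hsq : ∀ g ∈ D, g * g = 1) (c : ℕ)
    (hbase : ∀ (V : Type) [AddCommGroup V] [Module (ZMod 2) V] [FiniteDimensional (ZMod 2) V]
      (ρ : G →* (V →ₗ[ZMod 2] V)), finrank (ZMod 2) V < c → ∀ g ∈ D, ρ g = 1) :
    ∀ (K : ℕ) (V : Type) [AddCommGroup V] [Module (ZMod 2) V] [FiniteDimensional (ZMod 2) V]
      (ρ : G →* (V →ₗ[ZMod 2] V)), finrank (ZMod 2) V < (K + 1) * c → ∀ l : List G,
        l.length = 2 * K + 1 → (∀ g ∈ l, g ∈ D) → (l.map fun g => ρ g - 1).prod = 0 := by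
  intro K
  induction K with
  | zero =>
    intro V _ _ _ ρ hV l hl hD
    obtain ⟨g, rfl⟩ := List.length_eq_one_iff.1 (by simpa using hl)
    have h1 := hbase V ρ (by simpa using hV) g (hD g (by simp))
    simp [h1]
  | succ K ih =>
    intro V _ _ _ ρ hV l hl hD
    -- the subspace generated by the images of two operators
    set V2 : Submodule (ZMod 2) V := ⨆ p : D × D,
      LinearMap.range ((ρ p.1 - 1) ∘ₗ (ρ p.2 - 1) : V →ₗ[ZMod 2] V) with hV2
    have hmem2 : ∀ g ∈ D, ∀ g' ∈ D, ∀ v, (ρ g - 1) ((ρ g' - 1) v) ∈ V2 := by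
      intro g hg g' hg' v
      rw [hV2]
      exact Submodule.mem_iSup_of_mem (p := fun p : D × D =>
        LinearMap.range ((ρ p.1 - 1) ∘ₗ (ρ p.2 - 1) : V →ₗ[ZMod 2] V))
        (⟨g, hg⟩, ⟨g', hg'⟩) ⟨v, rfl⟩
    have hst : ∀ h, V2 ≤ V2.comap (ρ h) := by
      intro h
      refine iSup_le ?_
      rintro ⟨⟨g, hg⟩, ⟨g', hg'⟩⟩ _ ⟨x, rfl⟩
      show ρ h ((ρ g - 1) ((ρ g' - 1) x)) ∈ V2
      rw [conj_N, conj_N]
      exact hmem2 _ (hconj h g hg) _ (hconj h g' hg') _
    by_cases hq : finrank (ZMod 2) (V ⧸ V2) < c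
    · -- then the quotient is a trivial representation
      let ρq : G →* ((V ⧸ V2) →ₗ[ZMod 2] (V ⧸ V2)) :=
        { toFun := fun h => V2.mapQ V2 (ρ h) (hst h)
          map_one' := by
            apply LinearMap.ext
            intro y
            obtain ⟨x, rfl⟩ := V2.mkQ_surjective y
            show V2.mkQ (ρ 1 x) = V2.mkQ x
            rw [map_one]
            rfl
          map_mul' := fun a b => by
            apply LinearMap.ext
            intro y
            obtain ⟨x, rfl⟩ := V2.mkQ_surjective y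
            show V2.mkQ (ρ (a * b) x) = V2.mkQ (ρ a (ρ b x))
            rw [map_mul]
            rfl }
      have h1 : ∀ g ∈ D, ∀ v, (ρ g - 1) v ∈ V2 := by
        intro g hg v
        have h2 := hbase (V ⧸ V2) ρq hq g hg
        have h3 : V2.mkQ (ρ g v) = V2.mkQ v := LinearMap.congr_fun h2 (V2.mkQ v)
        have h4 : V2.mkQ ((ρ g - 1) v) = 0 := by
          rw [LinearMap.sub_apply, map_sub, h3]
          exact sub_self _
        rwa [Submodule.mkQ_apply, Submodule.Quotient.mk_eq_zero] at h4
      set V1 : Submodule (ZMod 2) V := ⨆ g : D, LinearMap.range (ρ g - 1 : V →ₗ[ZMod 2] V) with hV1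
      have hV12 : V1 ≤ V2 := by
        rw [hV1]
        apply iSup_le
        rintro ⟨g, hg⟩ _ ⟨x, rfl⟩
        exact h1 g hg x
      have hmem : ∀ g ∈ D, ∀ v, (ρ g - 1) v ∈ V1 := fun g hg v =>
        Submodule.mem_iSup_of_mem (p := fun g : D =>
          LinearMap.range (ρ g - 1 : V →ₗ[ZMod 2] V)) ⟨g, hg⟩ ⟨v, rfl⟩
      have h5 := nil (ZMod 2) (finrank (ZMod 2) V1) V1 D
        (fun g => (ρ g - 1 : V →ₗ[ZMod 2] V).restrict (p := V1) (q := V1)
          (fun x _ => hmem g g.2 x)) le_rfl
        (fun i j => by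
          apply LinearMap.ext
          intro x
          apply Subtype.ext
          show (ρ i - 1) ((ρ j - 1) (x : V)) = (ρ j - 1) ((ρ i - 1) (x : V))
          have h6 : (ρ i - 1) * (ρ j - 1) = (ρ j - 1) * (ρ i - 1) := by
            have h7 : ρ i * ρ j = ρ j * ρ i := by
              rw [← map_mul, ← map_mul, hcomm i i.2 j j.2]
            have h8 : ∀ a b : Module.End (ZMod 2) V, (a - 1) * (b - 1) = a * b - a - b + 1 := by
              intro a b
              noncomm_ring
            have h9 := h8 (ρ i) (ρ j)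
            have h10 := h8 (ρ j) (ρ i)
            rw [h9, h10, h7]
            abel
          exact LinearMap.congr_fun h6 x)
        (fun i => by
          apply LinearMap.ext
          intro x
          apply Subtype.ext
          show (ρ i - 1) ((ρ i - 1) (x : V)) = 0
          have h6 : (ρ i - 1) * (ρ i - 1) = 0 := by
            have h7 : ρ i * ρ i = 1 := by
              rw [← map_mul, hsq i i.2, map_one]
            rw [sub_mul, mul_sub, h7]
            simp only [one_mul, mul_one]
            have h8 : ∀ x : V →ₗ[ZMod 2] V, x + x = 0 := by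
              intro x
              rw [← two_smul (ZMod 2) x]
              have : (2 : ZMod 2) = 0 := rfl
              rw [this, zero_smul]
            have h9 : (1 - ρ (i : G) - (ρ (i : G) - 1) : V →ₗ[ZMod 2] V) =
                (1 + 1) - (ρ (i : G) + ρ (i : G)) := by abel
            rw [h9, h8, h8, sub_zero]
          exact LinearMap.congr_fun h6 x)
        (by
          rw [eq_top_iff]
          rw [← Submodule.map_le_map_iff_of_injective (f := V1.subtype) V1.subtype_injective,
            Submodule.map_top, Submodule.range_subtype]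
          refine hV12.trans ?_
          rw [hV2]
          apply iSup_le
          rintro ⟨⟨g, hg⟩, ⟨g', hg'⟩⟩ _ ⟨x, rfl⟩
          refine ⟨(ρ g - 1 : V →ₗ[ZMod 2] V).restrict (p := V1) (q := V1)
            (fun x _ => hmem g hg x) ⟨(ρ g' - 1) x, hmem g' hg' x⟩, ?_, rfl⟩
          exact Submodule.mem_iSup_of_mem (p := fun g : D => LinearMap.range
            ((ρ g - 1 : V →ₗ[ZMod 2] V).restrict (p := V1) (q := V1)
            (fun x _ => hmem g g.2 x))) ⟨g, hg⟩ ⟨_, rfl⟩)
      have h10 : V1 = ⊥ := Submodule.finrank_eq_zero.1 h5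
      match l, hl, hD with
      | [], hl, _ => simp at hl
      | g :: l', _, hD =>
        have hg : g ∈ D := hD g (by simp)
        have h11 : (ρ g - 1 : V →ₗ[ZMod 2] V) = 0 := by
          apply LinearMap.ext
          intro v
          have h12 := hmem g hg v
          rw [h10, Submodule.mem_bot] at h12
          rw [h12]
          rfl
        rw [List.map_cons, List.prod_cons, h11, zero_mul]
    · -- otherwise the dimension drops
      have h1 := Submodule.finrank_quotient_add_finrank V2
      have h2 : finrank (ZMod 2) V2 < (K + 1) * c := by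
        have h3 : (K + 1 + 1) * c = (K + 1) * c + c := by ring
        rw [h3] at hV
        omega
      let ρ2 : G →* (V2 →ₗ[ZMod 2] V2) :=
        { toFun := fun h => (ρ h).restrict (hst h)
          map_one' := by
            apply LinearMap.ext
            intro x
            apply Subtype.ext
            show ρ 1 (x : V) = x
            rw [map_one]
            rfl
          map_mul' := fun a b => by
            apply LinearMap.ext
            intro x
            apply Subtype.ext
            show ρ (a * b) (x : V) = ρ a (ρ b x)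
            rw [map_mul]
            rfl }
      have hcoe : ∀ (l : List G) (w : V2), (((l.map fun g => ρ2 g - 1).prod w : V2) : V) =
          (l.map fun g => ρ g - 1).prod (w : V) := by
        intro l
        induction l with
        | nil => intro w; rfl
        | cons g l ihl =>
          intro w
          rw [List.map_cons, List.prod_cons, List.map_cons, List.prod_cons]
          show ((ρ2 g - 1) ((l.map fun g => ρ2 g - 1).prod w) : V) =
            (ρ g - 1) ((l.map fun g => ρ g - 1).prod (w : V))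
          rw [← ihl]
          rfl
      obtain ⟨l1, a, b, rfl, hl1⟩ : ∃ l1 a b, l = l1 ++ [a, b] ∧ l1.length = 2 * K + 1 := by
        have h4 : (l.drop (2 * K + 1)).length = 2 := by
          rw [List.length_drop, hl]
          omega
        obtain ⟨a, b, hab⟩ := List.length_eq_two.1 h4
        refine ⟨l.take (2 * K + 1), a, b, ?_, ?_⟩
        · rw [← hab, List.take_append_drop]
        · rw [List.length_take, hl]
          omega
      have h5 := ih V2 ρ2 h2 l1 hl1 (fun g hg => hD g (by simp [hg]))
      have ha : a ∈ D := hD a (by simp)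
      have hb : b ∈ D := hD b (by simp)
      rw [List.map_append, List.prod_append]
      apply LinearMap.ext
      intro v
      have h6 : (ρ a - 1) ((ρ b - 1) v) ∈ V2 := hmem2 a ha b hb v
      have h7 := hcoe l1 ⟨_, h6⟩
      rw [h5] at h7
      have h8 : ((List.map (fun g => ρ g - 1) [a, b]).prod : V →ₗ[ZMod 2] V) v =
          (ρ a - 1) ((ρ b - 1) v) := by
        simp only [List.map_cons, List.map_nil, List.prod_cons, List.prod_nil, mul_one]
        rfl
      show (l1.map fun g => ρ g - 1).prod ((List.map (fun g => ρ g - 1) [a, b]).prod v) = 0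
      rw [h8]
      exact h7.symm

end loewy

section sym

variable {F : Type} [Ring F] {n : ℕ}

/-- an even permutation of the first `r` coordinates -/
def IsEvenPerm (r : ℕ) (g : (Matrix (Fin n) (Fin n) F)ˣ) : Prop :=
  ∃ σ : Equiv.Perm (Fin n), Equiv.Perm.sign σ = 1 ∧ (∀ i : Fin n, r ≤ i.val → σ i = i) ∧
    (g : Matrix (Fin n) (Fin n) F) = σ.permMatrix F

/-- the group generated by the even sign changes and the even permutations of the first `r`
coordinates -/
def G0 (F : Type) [Ring F] (n r : ℕ) : Subgroup (Matrix (Fin n) (Fin n) F)ˣ :=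
  Subgroup.closure ({g | IsEvenSign r g} ∪ {g | IsEvenPerm r g})

lemma G0_le {r : ℕ} {Γ : Subgroup (Matrix (Fin n) (Fin n) F)ˣ} (h : HasSym r Γ) :
    G0 F n r ≤ Γ := by
  refine (Subgroup.closure_le _).2 ?_
  rintro g (⟨d, h1, h2, h3⟩ | ⟨σ, h1, h2, h3⟩)
  · exact h.1 g d h1 h2 h3
  · exact h.2 g σ h1 h2 h3

lemma G0_sym (r : ℕ) : HasSym r (G0 F n r) :=
  ⟨fun _ d h1 h2 h3 => Subgroup.subset_closure (Or.inl ⟨d, h1, h2, h3⟩),
    fun _ σ h1 h2 h3 => Subgroup.subset_closure (Or.inr ⟨σ, h1, h2, h3⟩)⟩

lemma sgn_comm (a b : ℕ) : ((-1 : F) ^ a) * (-1) ^ b = (-1) ^ b * (-1) ^ a := by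
  rw [← pow_add, ← pow_add, add_comm]

lemma sgn_sq (a : ℕ) : ((-1 : F) ^ a) * (-1) ^ a = 1 := by
  rcases neg_one_pow_eq_or F a with h | h
  · rw [h, one_mul]
  · rw [h, neg_mul_neg, one_mul]

lemma sign_comm {r : ℕ} {g g' : (Matrix (Fin n) (Fin n) F)ˣ} (h : IsEvenSign r g)
    (h' : IsEvenSign r g') : g * g' = g' * g := by
  obtain ⟨d, _, _, h3⟩ := h
  obtain ⟨d', _, _, h3'⟩ := h'
  apply Units.ext
  rw [Units.val_mul, Units.val_mul, h3, h3', diagonal_mul_diagonal, diagonal_mul_diagonal]
  congr 1
  funext i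
  exact sgn_comm _ _

lemma sign_sq {r : ℕ} {g : (Matrix (Fin n) (Fin n) F)ˣ} (h : IsEvenSign r g) : g * g = 1 := by
  obtain ⟨d, _, _, h3⟩ := h
  apply Units.ext
  rw [Units.val_mul, h3, diagonal_mul_diagonal, Units.val_one, ← diagonal_one]
  congr 1
  funext i
  exact sgn_sq _

lemma perm_mul_diag (σ : Equiv.Perm (Fin n)) (d : Fin n → F) :
    σ.permMatrix F * diagonal d = diagonal (fun i => d (σ i)) * σ.permMatrix F := by
  ext i j
  rw [Matrix.mul_diagonal, Matrix.diagonal_mul]
  by_cases h : σ i = j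
  · have h1 : σ.permMatrix F i j = 1 := by
      simp [Equiv.Perm.permMatrix, PEquiv.toMatrix_apply, h]
    rw [h1, one_mul, mul_one, h]
  · have h1 : σ.permMatrix F i j = 0 := by
      simp [Equiv.Perm.permMatrix, PEquiv.toMatrix_apply, h]
    rw [h1, zero_mul, mul_zero]

lemma conj_perm {r : ℕ} {h : (Matrix (Fin n) (Fin n) F)ˣ} (hh : IsEvenPerm r h)
    {g : (Matrix (Fin n) (Fin n) F)ˣ} (hg : IsEvenSign r g) :
    IsEvenSign r (h * g * h⁻¹) ∧ IsEvenSign r (h⁻¹ * g * h) := by
  obtain ⟨σ, h1, h2, h3⟩ := hh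
  obtain ⟨d, g1, g2, g3⟩ := hg
  constructor
  · refine ⟨fun i => d (σ i), ?_, ?_, ?_⟩
    · rwa [Equiv.sum_comp σ d]
    · intro i hi
      show d (σ i) = 0
      rw [h2 i hi, g2 i hi]
    · rw [Units.val_mul, Units.val_mul, h3, g3, perm_mul_diag, ← h3, Matrix.mul_assoc,
        Units.mul_inv, Matrix.mul_one]
  · refine ⟨fun i => d (σ.symm i), ?_, ?_, ?_⟩
    · rwa [Equiv.sum_comp σ.symm d]
    · intro i hi
      show d (σ.symm i) = 0
      have h4 : σ.symm i = i := by rw [Equiv.symm_apply_eq, h2 i hi]
      rw [h4, g2 i hi]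
    · have h5 := perm_mul_diag σ (fun i => (-1 : F) ^ d (σ.symm i))
      have h6 : (fun i => (fun i => (-1 : F) ^ d (σ.symm i)) (σ i)) = fun i => (-1 : F) ^ d i := by
        funext i
        show (-1 : F) ^ d (σ.symm (σ i)) = _
        rw [Equiv.symm_apply_apply]
      rw [h6] at h5
      rw [Units.val_mul, Units.val_mul, g3, Matrix.mul_assoc, h3, ← h5, ← h3, ← Matrix.mul_assoc,
        Units.inv_mul, Matrix.one_mul]

lemma conj_G0 {r : ℕ} {h : (Matrix (Fin n) (Fin n) F)ˣ} (hh : h ∈ G0 F n r) :
    ∀ g : (Matrix (Fin n) (Fin n) F)ˣ, IsEvenSign r g →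
      IsEvenSign r (h * g * h⁻¹) ∧ IsEvenSign r (h⁻¹ * g * h) := by
  induction hh using Subgroup.closure_induction with
  | mem x hx =>
    intro g hg
    rcases hx with hx | hx
    · have h1 := sign_comm hx hg
      constructor
      · rw [h1, mul_inv_cancel_right]
        exact hg
      · rw [mul_assoc, ← h1, inv_mul_cancel_left]
        exact hg
    · exact conj_perm hx hg
  | one =>
    intro g hg
    rw [inv_one, mul_one, one_mul]
    exact ⟨hg, hg⟩
  | mul x y _ _ hx hy =>
    intro g hg
    constructor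
    · have h1 := (hx _ (hy g hg).1).1
      have h2 : x * y * g * (x * y)⁻¹ = x * (y * g * y⁻¹) * x⁻¹ := by group
      rwa [h2]
    · have h1 := (hy _ (hx g hg).2).2
      have h2 : (x * y)⁻¹ * g * (x * y) = y⁻¹ * (x⁻¹ * g * x) * y := by group
      rwa [h2]
  | inv x _ hx =>
    intro g hg
    have h1 := hx g hg
    rw [inv_inv]
    exact ⟨h1.2, h1.1⟩

end sym

/-- **Task 441.** -/
theorem grpl (h : S_GRP) : S_GRPL := by
  intro F _ n r Γ hr hΓ V _ _ _ ρ K hV g hg
  have hle := G0_le hΓ
  have hmem : ∀ i, ((g i : Γ) : (Matrix (Fin n) (Fin n) F)ˣ) ∈ G0 F n r := fun i =>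
    Subgroup.subset_closure (Or.inl (hg i))
  have key := loewy (G := G0 F n r) {g | IsEvenSign r (g : (Matrix (Fin n) (Fin n) F)ˣ)}
    (fun x y hy => (conj_G0 x.2 _ hy).1)
    (fun x hx y hy => Subtype.ext (sign_comm hx hy))
    (fun x hx => Subtype.ext (sign_sq hx))
    (2 * (r / 3))
    (fun V _ _ _ ρ hV x hx => by
      obtain ⟨d, h1, h2, h3⟩ := hx
      exact h F n r (G0 F n r) hr (G0_sym r) V ρ hV x d h1 h2 h3)
    K V (ρ.comp (Subgroup.inclusion hle)) hV
    (List.ofFn fun i => (⟨g i, hmem i⟩ : G0 F n r)) (by rw [List.length_ofFn])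
    (fun x hx => by
      rw [List.mem_ofFn] at hx
      obtain ⟨i, rfl⟩ := hx
      exact hg i)
  rw [List.map_ofFn] at key
  exact key

end Pool.Agent.E8helper38.ZB
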